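import Pool.Agent.Helper93_Trace.Dichotomy
import Pool.Agent.Helper93_Trace.General4
import Pool.Agent.Helper93_Trace.Main4

/-!
# Homogeneous trace Poisson brackets of degree `k ≥ 2`

* All homogeneous trace Poisson brackets of degree `k` on `N` matrices of size `m × m` are of form
  (*) if and only if `m = 1` or `(m, N) = (2, 1)`.  The counterexamples are
  `{f, g} = D₁ f D₂ g - D₂ f D₁ g` with `D₁ x_α = [x_α, x_1^{k-1}]`, `D₂ x_α = δ_{α2}`
  (for `N ≥ 2`, `m ≥ 2`) and `tr(x)^{k-1}` times the Lie–Poisson bracket of `gl_m`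
  (for `N = 1`, `m ≥ 3`).
* In all cases a homogeneous trace Poisson bracket of degree `k` has the general form
  `∑ (∏_{w ∈ T} tr w) (c^{T,u,v}_{αβ} (u)^{j'}_i (v)^j_{i'} + d^{T,u,v}_{αβ} (u)^j_i (v)^{j'}_{i'})`,
  the sum over the finitely many triples `(T, u, v)` of total length `k`; conversely a Poisson
  bracket of this form is homogeneous of degree `k` and invariant under conjugation.
* If `m ≥ 2k + 400`, or `N = 1`, the bracket differs from a tensor of form (*) only by a tensor
  (again of the general form) which vanishes on all pairs of traces of matrix polynomials; for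
  `N = 1` the traces of matrix polynomials Poisson commute.
-/

namespace Pool.Agent.Results.MP_9bafdc_mp.FullAnswer

open Pool.Agent.Helper93Trace

/-- The answer to the question whether every homogeneous trace Poisson bracket of degree `k` is of
form (*), together with the general formula. -/
theorem result :
    (∀ k m N : ℕ, 2 ≤ k → 1 ≤ m → 1 ≤ N →
      ((∀ B : PoissonBracket m N, IsTraceBracket B → IsHomogeneousBracket B k → IsFormStar B k) ↔
        (m = 1 ∨ (m = 2 ∧ N = 1)))) ∧
    (∀ (k m N : ℕ) (B : PoissonBracket m N), IsTraceBracket B → IsHomogeneousBracket B k →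
      IsGeneralForm B k) ∧
    (∀ (k m N : ℕ) (B : PoissonBracket m N), IsGeneralForm B k →
      IsHomogeneousBracket B k ∧ IsConjInvariant B) ∧
    (∀ (k m N : ℕ) (B : PoissonBracket m N), 1 ≤ N → 2 * k + 400 ≤ m → IsTraceBracket B →
      IsHomogeneousBracket B k → AgreesOnTraces B k) ∧
    (∀ (k m : ℕ) (B : PoissonBracket m 1), 1 ≤ m → IsTraceBracket B → IsHomogeneousBracket B k →
      ∀ P₁ P₂ : FreeAlgebra ℂ (Fin 1),
        B.br (Matrix.trace (matPoly P₁)) (Matrix.trace (matPoly P₂)) = 0) :=
  ⟨fun k m N hk hm hN => star_dichotomy k m N hk hm hN,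
    fun k _ _ B hB hk => bracket_general B k hB.1 hk,
    fun k _ _ B h => ⟨((generalForm_iff B k).mp h).2, ((generalForm_iff B k).mp h).1⟩,
    fun k _ _ B hN hm hB hk => agrees_stable (by omega) hN B k hB hk (Or.inr hm),
    fun k _ B hm hB hk => agrees_one hm B k hB hk⟩

end Pool.Agent.Results.MP_9bafdc_mp.FullAnswer
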